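import Pool.Agent.Helper83.SU.St

set_option autoImplicit false

namespace Pool.Agent.Helper89.SU

open Pool.Agent.Helper83.SU Pool.Agent.Helper83.CK Cardinal Set

universe u

private theorem ex_e : ∃ e : (ℕ → Bool) → ℕ × (ℕ → Bool), Function.Surjective e := by
  classical
  refine ⟨fun y => (if h : ∃ n, y n = true then (Nat.find h, fun m => y (Nat.find h + 1 + m))
    else (0, y)), ?_⟩
  rintro ⟨n, z⟩
  let y : ℕ → Bool := fun k => if k < n then false else if k = n then true else z (k - (n + 1))
  have hy : ∃ n, y n = true := ⟨n, by simp [y]⟩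
  have hf : Nat.find hy = n := by
    rw [Nat.find_eq_iff]
    refine ⟨by simp [y], fun k hk => by simp [y, hk]⟩
  refine ⟨y, ?_⟩
  have h1 : ∀ m, y (n + 1 + m) = z m := by
    intro m
    have a1 : ¬ n + 1 + m < n := by omega
    have a2 : ¬ n + 1 + m = n := by omega
    have a3 : n + 1 + m - (n + 1) = m := by omega
    simp only [y, if_neg a1, if_neg a2, a3]
  show (if h : ∃ n, y n = true then (Nat.find h, fun m => y (Nat.find h + 1 + m)) else (0, y)) = _
  rw [dif_pos hy, hf]
  exact Prod.ext rfl (funext h1)

theorem mMG : StMG.{u} := by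
  intro α G
  obtain ⟨e, he⟩ := ex_e
  refine ⟨fun y => G (e y).1 (e y).2, ?_⟩
  intro A
  constructor
  · intro h n i x hx
    obtain ⟨y, hy⟩ := he (n, i)
    have := h y x hx
    simpa only [hy] using this
  · intro h y x hx
    exact h (e y).1 (e y).2 x hx

end Pool.Agent.Helper89.SU
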